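import Pool.Agent.Helper49.LC.St

/-!
# Project LC, module SIN: inverse of an injective local diffeomorphism
-/

set_option autoImplicit false

namespace Pool.Agent.Helper54.LC

open Pool.Agent.Helper14.LK Pool.Agent.Helper49.LC
open scoped ContDiff Topology
open Set Filter

theorem hSIN : StSIN := by
  intro E _ _ _ W U hW hU hinj hd
  have hcs : CompleteSpace E := FiniteDimensional.complete ℝ E
  have key : ∀ w ∈ U, ∃ e : E ≃L[ℝ] E, HasFDerivAt W (e : E →L[ℝ] E) w := by
    intro w hw
    have h1 : Function.Injective (fderiv ℝ W w : E →ₗ[ℝ] E) := by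
      rw [← LinearMap.ker_eq_bot, LinearMap.ker_eq_bot']
      intro a ha
      exact hd w hw a ha
    refine ⟨(LinearEquiv.ofInjectiveEndo (fderiv ℝ W w : E →ₗ[ℝ] E) h1).toContinuousLinearEquiv, ?_⟩
    have he : (((LinearEquiv.ofInjectiveEndo (fderiv ℝ W w : E →ₗ[ℝ] E)
        h1).toContinuousLinearEquiv : E ≃L[ℝ] E) : E →L[ℝ] E) = fderiv ℝ W w := by
      ext a
      rfl
    rw [he]
    exact (hW.differentiable (by simp)).differentiableAt.hasFDerivAt
  have hn : (∞ : WithTop ℕ∞) ≠ 0 := by simp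
  refine ⟨?_, Function.invFunOn W U, fun w hw => hinj.leftInvOn_invFunOn hw, ?_⟩
  · rw [isOpen_iff_mem_nhds]
    rintro _ ⟨w, hw, rfl⟩
    obtain ⟨e, he⟩ := key w hw
    have h1 : HasStrictFDerivAt W (e : E →L[ℝ] E) w := hW.contDiffAt.hasStrictFDerivAt' he hn
    rw [← h1.map_nhds_eq_of_equiv]
    exact image_mem_map (hU.mem_nhds hw)
  · intro w hw
    obtain ⟨e, he⟩ := key w hw
    have h1 : HasStrictFDerivAt W (e : E →L[ℝ] E) w := hW.contDiffAt.hasStrictFDerivAt' he hn
    have h2 : ContDiffAt ℝ ∞ (h1.localInverse W e w) (W w) :=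
      (hW.contDiffAt (x := w)).to_localInverse he hn
    refine h2.congr_of_eventuallyEq ?_
    have h3 : Tendsto (h1.localInverse W e w) (𝓝 (W w)) (𝓝 w) := by
      have := h2.continuousAt.tendsto
      rwa [h1.localInverse_apply_image] at this
    filter_upwards [h1.eventually_right_inverse, h3.eventually (hU.mem_nhds hw)] with z hz hzU
    have h4 := hinj.leftInvOn_invFunOn hzU
    rwa [hz] at h4

end Pool.Agent.Helper54.LC
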